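import Pool.Agent.Hhelper14.HilbIrred

/-!
# Very compressed loci that are neither smoothable nor components

The problem asks whether, for every pair `(n, d)`, the very compressed locus `VC_{n,d}` is
contained in the smoothable component of `Hilb_d(𝔸ⁿ)` or has closure an irreducible component.
We show that for every `n ≥ 3` this fails for arbitrarily large `d`, over every algebraically
closed field.

All definitions used by the statement (`HilbPt`, its Zariski topology, `smoothable`,
`veryCompressed`) are in `Pool/Agent/Hhelper14/HilbDefs.lean`.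
-/

open MvPolynomial TopologicalSpace

namespace Pool.Agent.Results.MP_5fb40f_ag.VeryCompressed

open Pool.Agent.HilbVC

universe u

theorem multichoose_lower (n s : ℕ) (hn : 3 ≤ n) : (s + 2).choose 2 ≤ n.multichoose s := by
  induction n, hn using Nat.le_induction with
  | base =>
    rw [Nat.multichoose_eq, ← Nat.choose_symm (by omega)]
    apply le_of_eq
    congr 1
    omega
  | succ n hn ih =>
    refine ih.trans ?_
    cases s with
    | zero => simp
    | succ s => rw [Nat.multichoose_succ_succ]; omega

theorem two_mul_choose_two (s : ℕ) : 2 * (s + 2).choose 2 = (s + 2) * (s + 1) := by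
  have h := Nat.choose_two_right (s + 2)
  have h2 : 2 ∣ (s + 2) * (s + 1) := by
    have := Nat.even_mul_succ_self (s + 1)
    rw [mul_comm] at this
    exact this.two_dvd
  have h3 : (s + 2) - 1 = s + 1 := by omega
  rw [h3] at h
  rw [h, Nat.mul_div_cancel' h2]

theorem n_mul_choose (n s : ℕ) (hn : 1 ≤ n) :
    n * (n + s - 1).choose n = s * n.multichoose s := by
  rw [← choose_eq_multichoose n s hn]
  obtain ⟨a, rfl⟩ : ∃ a, n = a + 1 := ⟨n - 1, by omega⟩
  have h1 : a + 1 + s - 1 = a + s := by omega
  have h2 : s + (a + 1) - 1 = a + s := by omega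
  have h3 : a + 1 - 1 = a := by omega
  rw [h1, h2, h3, mul_comm, Nat.choose_succ_right_eq, mul_comm]
  congr 1
  omega

theorem numerics (n s c : ℕ) (hn : 3 ≤ n) (hs : 8 * n ≤ s)
    (hc : c = 2 * s + n + 1 ∨ c = 2 * s + n + 2) :
    2 * c ≤ n.multichoose s ∧ n * (c + 1) < n.multichoose (s + 1) := by
  have h1 := multichoose_lower n s hn
  have h2 := multichoose_lower n (s + 1) hn
  have h3 := two_mul_choose_two s
  have h4 := two_mul_choose_two (s + 1)
  have hc' : c ≤ 2 * s + n + 2 := by omega
  constructor
  · nlinarith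
  · have h5 : n * (c + 1) ≤ n * (2 * s + n + 3) := Nat.mul_le_mul_left n (by omega)
    nlinarith

theorem dims (n s c r d : ℕ) (hn : 3 ≤ n) (hs : 8 * n ≤ s)
    (hc : c = 2 * s + n + 1 ∨ c = 2 * s + n + 2) (hcr : c + r = n.multichoose s)
    (hd : d = (n + s - 1).choose n + r) : 1 ≤ r ∧ s ≤ d ∧ n * d < r * c := by
  obtain ⟨h1, -⟩ := numerics n s c hn hs hc
  have h2 := n_mul_choose n s (by omega)
  have h3 : n.multichoose s ≤ 2 * r := by omega
  have hr : 1 ≤ r := by omega
  refine ⟨hr, by omega, ?_⟩
  have h4 : n * d = s * n.multichoose s + n * r := by rw [hd, mul_add, h2]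
  rw [h4]
  have h5 : s * n.multichoose s ≤ s * (2 * r) := Nat.mul_le_mul_left s h3
  have h6 : 2 * s + n + 1 ≤ c := by omega
  have h7 : r * (2 * s + n + 1) ≤ r * c := Nat.mul_le_mul_left r h6
  nlinarith

/-- **Disproof of the dichotomy.** For every algebraically closed field `k`, every `n ≥ 3` and
every bound `m` there is `d ≥ m` such that the (irreducible) very compressed locus `VC_{n,d}` is
not contained in the smoothable component of `Hilb_d(𝔸ⁿ)`, its closure is not an irreducible
component, and its closure is in fact properly contained in an irreducible component. -/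
theorem result (k : Type u) [Field k] [IsAlgClosed k] (n : ℕ) (hn : 3 ≤ n) (m : ℕ) :
    ∃ d : ℕ, m ≤ d ∧
      IsIrreducible (veryCompressed k n d) ∧
      ¬ (veryCompressed k n d ⊆ smoothable k n d) ∧
      closure (veryCompressed k n d) ∉ irreducibleComponents (HilbPt k n d) ∧
      ∃ Z ∈ irreducibleComponents (HilbPt k n d), closure (veryCompressed k n d) ⊂ Z := by
  have hinf : Infinite k := IsAlgClosed.instInfinite
  let s := 8 * n + m
  have hs : 8 * n ≤ s := by omega
  obtain ⟨c, hc, r, hcr, hdk⟩ : ∃ c, (c = 2 * s + n + 1 ∨ c = 2 * s + n + 2) ∧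
      ∃ r, c + r = n.multichoose s ∧ (((n + s - 1).choose n + r : ℕ) : k) ≠ 0 := by
    have h1 := (numerics n s (2 * s + n + 2) hn hs (Or.inr rfl)).1
    obtain ⟨r, hr⟩ : ∃ r, (2 * s + n + 2) + r = n.multichoose s :=
      ⟨n.multichoose s - (2 * s + n + 2), by omega⟩
    by_cases h2 : (((n + s - 1).choose n + r : ℕ) : k) = 0
    · refine ⟨2 * s + n + 1, Or.inl rfl, r + 1, by omega, ?_⟩
      rw [← add_assoc, Nat.cast_add, h2, Nat.cast_one, zero_add]
      exact one_ne_zero
    · exact ⟨2 * s + n + 2, Or.inr rfl, r, hr, h2⟩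
  obtain ⟨hr, hsd, hlt⟩ := dims n s c r _ hn hs hc hcr rfl
  have hnc := (numerics n s c hn hs hc).2
  refine ⟨(n + s - 1).choose n + r, by omega, ?_⟩
  have hns : ¬ (veryCompressed k n ((n + s - 1).choose n + r) ⊆
      smoothable k n ((n + s - 1).choose n + r)) :=
    not_subset_smoothable s r c (by omega) (by omega) hr hcr rfl hlt
  have hne : (veryCompressed k n ((n + s - 1).choose n + r)).Nonempty := by
    obtain ⟨A, hA, -⟩ := Set.not_subset.1 hns
    exact ⟨A, hA⟩
  have hirr := veryCompressed_irreducible (k := k) s r c (by omega) (by omega) hr hcr rfl hne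
  have hcomp := closure_notMem_components (k := k) s r c (by omega) (by omega) hr hcr rfl hdk hnc
  refine ⟨hirr, hns, hcomp, ?_⟩
  obtain ⟨Z, hZ, hsub⟩ := exists_mem_irreducibleComponents_subset_of_isIrreducible _ hirr.closure
  refine ⟨Z, hZ, hsub, fun h => ?_⟩
  have : Z = closure (veryCompressed k n ((n + s - 1).choose n + r)) :=
    Set.Subset.antisymm h hsub
  rw [this] at hZ
  exact hcomp hZ

end Pool.Agent.Results.MP_5fb40f_ag.VeryCompressed
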